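import Pool.Agent.J6H50.RF.Stm

/-!
# Project RF: module RF-09

Numerals and polynomials in `ℕ`; the embedding of `ℕ` in itself.
-/

set_option autoImplicit false

namespace Pool.Agent.J6H9.RF09

open Pool.Agent.J6H50.RF Pool.Agent.NPC

theorem num_zero : num 0 = Tm.zero := by
  simp [num]

theorem foldr_val (l : List Bool) (v : ℕ → ℕ) :
    (l.foldr (fun (b : Bool) (t : Tm) => if b then Tm.suc (.mul two t) else .mul two t) .zero).val Nn v =
      l.foldr (fun b n => Nat.bit b n) 0 := by
  induction l with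
  | nil => rfl
  | cons b l ih =>
    rw [List.foldr_cons, List.foldr_cons, ← ih]
    cases b
    · show (0 + 1 + 1) * _ = _
      rw [Nat.bit_false]
    · show (0 + 1 + 1) * _ + 1 = _
      rw [Nat.bit_true]

theorem foldr_bits (n : ℕ) : n.bits.foldr (fun b n => Nat.bit b n) 0 = n := by
  induction n using Nat.binaryRec' with
  | zero => simp
  | bit b n h ih =>
    rw [Nat.bits_append_bit n b h, List.foldr_cons, ih]

theorem num_val (n : ℕ) (v : ℕ → ℕ) : (num n).val Nn v = n := by
  rw [num, foldr_val, foldr_bits]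

theorem foldr_occ (l : List Bool) (i : ℕ) :
    ¬ (l.foldr (fun (b : Bool) (t : Tm) => if b then Tm.suc (.mul two t) else .mul two t) .zero).Occ i := by
  induction l with
  | nil => simp [Tm.Occ]
  | cons b l ih =>
    cases b
    · simpa [List.foldr, Tm.Occ, two] using ih
    · simpa [List.foldr, Tm.Occ, two] using ih

theorem num_occ (n i : ℕ) : ¬ (num n).Occ i := foldr_occ _ i

theorem pTm_val (p : List ℕ) (t : Tm) (v : ℕ → ℕ) : (pTm p t).val Nn v = pEv p (t.val Nn v) := by
  induction p with
  | nil => rfl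
  | cons c p ih =>
    have h : (pTm (c :: p) t) = .add (num c) (.mul t (pTm p t)) := rfl
    have h2 : pEv (c :: p) (t.val Nn v) = c + t.val Nn v * pEv p (t.val Nn v) := rfl
    rw [h, h2, ← ih]
    show (num c).val Nn v + t.val Nn v * (pTm p t).val Nn v = _
    rw [num_val]

theorem pEv_mono (p : List ℕ) (x y : ℕ) (h : x ≤ y) : pEv p x ≤ pEv p y := by
  induction p with
  | nil => exact le_refl _
  | cons c p ih =>
    show c + x * pEv p x ≤ c + y * pEv p y
    exact Nat.add_le_add_left (Nat.mul_le_mul h ih) c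

theorem m09 : S_numN := by
  refine ⟨⟨fun m n h => h, rfl, fun _ => rfl, fun _ _ => rfl, fun _ _ => rfl, fun _ _ => rfl,
    fun _ => rfl, fun _ => rfl, fun _ _ => Iff.rfl, fun x n _ => ⟨x, rfl⟩⟩, num_val, num_occ,
    pTm_val, pEv_mono⟩

end Pool.Agent.J6H9.RF09
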